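import Pool.Agent.R418.UP.B
import Pool.Agent.R418.GE.B

set_option autoImplicit false

/-! Signs of the Jacobi symbols of several polynomials: proportions of the residues modulo `p`. -/

namespace Pool.Agent.R418.PT

open Finset Polynomial Pool.Agent.R418.UP

theorem sum_inv_sqrt_le (S : Finset ℕ) (hS : ∀ n ∈ S, 1 ≤ n) :
    ∑ n ∈ S, (1 : ℝ) / √n ≤ 2 * √(S.card : ℝ) := by
  classical
  induction S using Finset.induction_on_max with
  | empty => simp
  | insert a s hmax ih =>
    have hna : a ∉ s := fun h => lt_irrefl _ (hmax a h)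
    have h1 := ih (fun n hn => hS n (mem_insert_of_mem hn))
    have hcard : s.card + 1 ≤ a := by
      have h2 : insert a s ⊆ Icc 1 a := by
        intro n hn
        rw [mem_Icc]
        refine ⟨hS n hn, ?_⟩
        rcases mem_insert.mp hn with h | h
        · exact h.le
        · exact (hmax n h).le
      have := card_le_card h2
      rw [card_insert_of_notMem hna, Nat.card_Icc] at this
      omega
    rw [sum_insert hna, card_insert_of_notMem hna]
    push_cast
    obtain ⟨k, hk⟩ : ∃ k : ℝ, k = s.card := ⟨_, rfl⟩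
    rw [← hk] at h1 ⊢
    have hk0 : 0 ≤ k := by rw [hk]; positivity
    have hka : k + 1 ≤ a := by rw [hk]; exact_mod_cast hcard
    have hu : 0 < √(k + 1) := Real.sqrt_pos.mpr (by linarith)
    have h3 : (1 : ℝ) / √(a : ℝ) ≤ 1 / √(k + 1) :=
      one_div_le_one_div_of_le hu (Real.sqrt_le_sqrt hka)
    have h4 : 1 / √(k + 1) ≤ 2 * √(k + 1) - 2 * √k := by
      rw [div_le_iff₀ hu]
      have e1 := Real.sq_sqrt (show (0 : ℝ) ≤ k + 1 by linarith)
      have e2 := Real.sq_sqrt hk0
      nlinarith [sq_nonneg (√(k + 1) - √k)]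
    linarith

theorem weil_sub (F G : ℤ[X]) (hGF : G ∣ F) (hd : 1 ≤ G.natDegree) (hF1 : 1 ≤ F.natDegree) (p : ℕ)
    (hp : p.Prime) (hp2 : p ≠ 2) (hb : ¬ (p : ℤ) ∣ bad F) :
    |((∑ n ∈ range p, jacobiSym (G.eval (n : ℤ)) p : ℤ) : ℝ)| ≤ G.natDegree * √p := by
  have : Fact p.Prime := ⟨hp⟩
  obtain ⟨-, h2⟩ := separable_mod F hF1 p hb
  have h1 : (G.map (Int.castRingHom (ZMod p))).natDegree = G.natDegree := by
    apply natDegree_map_of_leadingCoeff_ne_zero
    intro h
    rw [eq_intCast, ZMod.intCast_zmod_eq_zero_iff_dvd] at h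
    obtain ⟨H, hH⟩ := hGF
    apply hb
    unfold bad
    refine Dvd.dvd.mul_right ?_ _
    rw [hH, leadingCoeff_mul]
    exact Dvd.dvd.mul_right h _
  have h2 : (G.map (Int.castRingHom (ZMod p))).Separable :=
    h2.of_dvd (Polynomial.map_dvd _ hGF)
  have hF : ringChar (ZMod p) ≠ 2 := by
    rw [ZMod.ringChar_zmod_n]; exact hp2
  have h3 := Pool.Agent.H341R2.Sharp.weil_sharp hF (G.map (Int.castRingHom (ZMod p)))
    (by omega) (Pool.Agent.H341R2.not_const_mul_sq h2 (by omega))
  rw [h1, ZMod.card] at h3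
  have h4 : ∑ x : ZMod p, ((quadraticChar (ZMod p)
      ((G.map (Int.castRingHom (ZMod p))).eval x) : ℤ) : ℝ) =
      ((∑ n ∈ range p, jacobiSym (G.eval (n : ℤ)) p : ℤ) : ℝ) := by
    rw [Pool.Agent.TH869.EVF.sum_zmod p]
    push_cast
    refine sum_congr rfl fun n _ => ?_
    have h7 : (G.map (Int.castRingHom (ZMod p))).eval (n : ZMod p) =
        ((G.eval (n : ℤ) : ℤ) : ZMod p) := by
      have := Polynomial.eval_intCast_map (Int.castRingHom (ZMod p)) G (n : ℤ)
      rw [eq_intCast, Int.cast_natCast] at this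
      exact this
    rw [h7, ← jacobiSym.legendreSym.to_jacobiSym, legendreSym]
  rw [h4] at h3
  refine h3.trans ?_
  have h5 : 0 ≤ √(p : ℝ) := Real.sqrt_nonneg _
  nlinarith

theorem jac_prod {ι : Type} (I : Finset ι) (f : ι → ℤ[X]) (n : ℤ) (p : ℕ) :
    jacobiSym ((∏ i ∈ I, f i).eval n) p = ∏ i ∈ I, jacobiSym ((f i).eval n) p := by
  classical
  induction I using Finset.induction_on with
  | empty => simp
  | insert a s ha ih => rw [prod_insert ha, prod_insert ha, eval_mul, jacobiSym.mul_left, ih]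

/-- the number of zeros modulo `p` -/
theorem card_zeros (F : ℤ[X]) (hF1 : 1 ≤ F.natDegree) (p : ℕ) (hp : p.Prime)
    (hb : ¬ (p : ℤ) ∣ bad F) :
    (((range p).filter (fun n : ℕ => (p : ℤ) ∣ F.eval (n : ℤ))).card) ≤ F.natDegree := by
  classical
  have : Fact p.Prime := ⟨hp⟩
  obtain ⟨h1, h2⟩ := separable_mod F hF1 p hb
  have h0 : F.map (Int.castRingHom (ZMod p)) ≠ 0 := h2.ne_zero
  rw [← h1]
  refine le_trans ?_ (Polynomial.card_roots' _)
  refine le_trans ?_ (Multiset.toFinset_card_le _)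
  refine card_le_card_of_injOn (fun n : ℕ => (n : ZMod p)) ?_ ?_
  · intro n hn
    rw [mem_coe, mem_filter] at hn
    rw [mem_coe, Multiset.mem_toFinset, mem_roots h0, IsRoot.def]
    have := Polynomial.eval_intCast_map (Int.castRingHom (ZMod p)) F (n : ℤ)
    rw [eq_intCast, Int.cast_natCast] at this
    rw [this, ZMod.intCast_zmod_eq_zero_iff_dvd]
    exact hn.2
  · intro a ha b hb hab
    rw [mem_coe, mem_filter, mem_range] at ha hb
    have := congrArg ZMod.val hab
    simp only at this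
    rwa [ZMod.val_natCast_of_lt ha.1, ZMod.val_natCast_of_lt hb.1] at this

theorem mean_signs {m : ℕ} (hm : 1 ≤ m) (f : Fin m → ℤ[X]) (hd : ∀ i, 1 ≤ (f i).natDegree) (p : ℕ)
    (hp : p.Prime) (hp2 : p ≠ 2) (hb : ¬ (p : ℤ) ∣ bad (∏ i, f i)) (s : Fin m → ℤ)
    (hs : ∀ i, s i = 1 ∨ s i = -1) :
    |(∑ n ∈ range p, (if ∀ i, jacobiSym ((f i).eval (n : ℤ)) p = s i then (1 : ℝ) else 0)) -
      (p : ℝ) / 2 ^ m| ≤ 2 * (∏ i, f i).natDegree * √p := by
  classical
  obtain ⟨F, hF⟩ : ∃ F : ℤ[X], F = ∏ i, f i := ⟨_, rfl⟩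
  rw [← hF] at hb ⊢
  have hf0 : ∀ i, f i ≠ 0 := fun i h => by
    have := hd i
    rw [h, natDegree_zero] at this
    omega
  have hsub : ∀ I : Finset (Fin m), (∏ i ∈ I, f i) ∣ F := fun I => by
    rw [hF]
    exact prod_dvd_prod_of_subset _ _ _ (subset_univ I)
  have hF0 : F ≠ 0 := by rw [hF]; exact prod_ne_zero_iff.mpr fun i _ => hf0 i
  have hI0 : ∀ I : Finset (Fin m), (∏ i ∈ I, f i) ≠ 0 := fun I =>
    prod_ne_zero_iff.mpr fun i _ => hf0 i
  have hdegle : ∀ I : Finset (Fin m), (∏ i ∈ I, f i).natDegree ≤ F.natDegree := fun I =>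
    natDegree_le_of_dvd (hsub I) hF0
  have hdegge : ∀ I : Finset (Fin m), I.Nonempty → 1 ≤ (∏ i ∈ I, f i).natDegree := by
    intro I hI
    obtain ⟨i, hi⟩ := hI
    exact (hd i).trans (natDegree_le_of_dvd (dvd_prod_of_mem _ hi) (hI0 I))
  have hF1 : 1 ≤ F.natDegree := (hd ⟨0, hm⟩).trans (natDegree_le_of_dvd
    (by rw [hF]; exact dvd_prod_of_mem _ (mem_univ _)) hF0)
  have hp1 : (1 : ℝ) ≤ p := by exact_mod_cast hp.one_lt.le
  have hsq1 : 1 ≤ √(p : ℝ) := by
    rw [Real.one_le_sqrt]; exact hp1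
  have hFr : (1 : ℝ) ≤ F.natDegree := by exact_mod_cast hF1
  -- the product form
  obtain ⟨G, hG⟩ : ∃ G : ℕ → ℝ, G = fun n : ℕ =>
    ∏ i, ((1 + (s i : ℝ) * (jacobiSym ((f i).eval (n : ℤ)) p : ℝ)) / 2) := ⟨_, rfl⟩
  have hfac : ∀ (i : Fin m) (n : ℕ), 0 ≤ (1 + (s i : ℝ) * (jacobiSym ((f i).eval (n : ℤ)) p : ℝ)) / 2 ∧
      (1 + (s i : ℝ) * (jacobiSym ((f i).eval (n : ℤ)) p : ℝ)) / 2 ≤ 1 := by
    intro i n
    rcases hs i with h | h <;> rcases jacobiSym.trichotomy ((f i).eval (n : ℤ)) p with h' | h' | h' <;>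
      rw [h, h'] <;> norm_num
  have hdiff : ∀ n : ℕ, |(if ∀ i, jacobiSym ((f i).eval (n : ℤ)) p = s i then (1 : ℝ) else 0) - G n| ≤
      if (p : ℤ) ∣ F.eval (n : ℤ) then 1 else 0 := by
    intro n
    have hG01 : 0 ≤ G n ∧ G n ≤ 1 := by
      rw [hG]
      exact ⟨prod_nonneg fun i _ => (hfac i n).1, prod_le_one (fun i _ => (hfac i n).1)
        fun i _ => (hfac i n).2⟩
    by_cases hz : (p : ℤ) ∣ F.eval (n : ℤ)
    · rw [if_pos hz, abs_le]
      split_ifs <;> constructor <;> linarith [hG01.1, hG01.2]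
    · rw [if_neg hz]
      have hjac : ∀ i, jacobiSym ((f i).eval (n : ℤ)) p = 1 ∨
          jacobiSym ((f i).eval (n : ℤ)) p = -1 := by
        intro i
        rcases jacobiSym.trichotomy ((f i).eval (n : ℤ)) p with h' | h' | h'
        · exfalso
          apply hz
          have : Fact p.Prime := ⟨hp⟩
          rw [← jacobiSym.legendreSym.to_jacobiSym, legendreSym.eq_zero_iff,
            ZMod.intCast_zmod_eq_zero_iff_dvd] at h'
          refine h'.trans ?_
          have := hsub {i}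
          rw [prod_singleton] at this
          exact Polynomial.eval_dvd this
        · exact Or.inl h'
        · exact Or.inr h'
      have : (if ∀ i, jacobiSym ((f i).eval (n : ℤ)) p = s i then (1 : ℝ) else 0) = G n := by
        rw [hG]
        simp only
        split_ifs with hall
        · symm
          apply prod_eq_one
          intro i _
          rw [hall i]
          rcases hs i with h | h <;> rw [h] <;> norm_num
        · push Not at hall
          obtain ⟨i, hi⟩ := hall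
          symm
          apply prod_eq_zero (mem_univ i)
          rcases hs i with h | h <;> rcases hjac i with h' | h' <;> rw [h, h'] at hi ⊢ <;>
            first | (exact absurd rfl hi) | norm_num
      rw [this, sub_self, abs_zero]
  have hsum1 : |∑ n ∈ range p, (if ∀ i, jacobiSym ((f i).eval (n : ℤ)) p = s i then (1 : ℝ) else 0) -
      ∑ n ∈ range p, G n| ≤ F.natDegree := by
    rw [← sum_sub_distrib]
    refine (abs_sum_le_sum_abs _ _).trans ((sum_le_sum fun n _ => hdiff n).trans ?_)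
    rw [← sum_filter, sum_const, nsmul_eq_mul, mul_one]
    exact_mod_cast card_zeros F hF1 p hp hb
  have hexp : ∑ n ∈ range p, G n = (∑ I : Finset (Fin m), (∏ i ∈ I, (s i : ℝ)) *
      ((∑ n ∈ range p, jacobiSym ((∏ i ∈ I, f i).eval (n : ℤ)) p : ℤ) : ℝ)) / 2 ^ m := by
    have e1 : ∀ n : ℕ, G n = (∑ I : Finset (Fin m), (∏ i ∈ I, (s i : ℝ)) *
        (jacobiSym ((∏ i ∈ I, f i).eval (n : ℤ)) p : ℝ)) / 2 ^ m := by
      intro n
      rw [hG]
      simp only
      rw [prod_div_distrib, prod_const, card_univ, Fintype.card_fin, prod_one_add, powerset_univ]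
      congr 1
      refine sum_congr rfl fun I _ => ?_
      rw [prod_mul_distrib, jac_prod]
      push_cast
      rfl
    rw [sum_congr rfl fun n _ => e1 n, ← sum_div, sum_comm]
    congr 1
    refine sum_congr rfl fun I _ => ?_
    push_cast
    rw [mul_sum]
  have hmain : |∑ n ∈ range p, G n - (p : ℝ) / 2 ^ m| ≤ F.natDegree * √p := by
    rw [hexp, ← sub_div, abs_div, abs_of_pos (show (0 : ℝ) < 2 ^ m by positivity),
      div_le_iff₀ (by positivity)]
    rw [← sum_erase_add _ _ (mem_univ (∅ : Finset (Fin m)))]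
    have e0 : (∏ i ∈ (∅ : Finset (Fin m)), (s i : ℝ)) *
      ((∑ n ∈ range p, jacobiSym ((∏ i ∈ (∅ : Finset (Fin m)), f i).eval (n : ℤ)) p : ℤ) : ℝ) = p := by
      simp
    rw [e0, add_sub_cancel_right]
    refine (abs_sum_le_sum_abs _ _).trans ?_
    refine (sum_le_sum (g := fun _ => (F.natDegree : ℝ) * √p) fun I hI => ?_).trans ?_
    · have hIne : I.Nonempty := by
        rw [nonempty_iff_ne_empty]
        exact ne_of_mem_erase hI
      rw [abs_mul]
      have e1 : |∏ i ∈ I, (s i : ℝ)| = 1 := by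
        rw [abs_prod]
        apply prod_eq_one
        intro i _
        rcases hs i with h | h <;> rw [h] <;> norm_num
      rw [e1, one_mul]
      refine (weil_sub F _ (hsub I) (hdegge I hIne) hF1 p hp hp2 hb).trans ?_
      exact mul_le_mul_of_nonneg_right (by exact_mod_cast hdegle I) (Real.sqrt_nonneg _)
    · rw [sum_const, nsmul_eq_mul, mul_comm]
      refine mul_le_mul_of_nonneg_left ?_ (by positivity)
      have := card_le_card (erase_subset (∅ : Finset (Fin m)) univ)
      rw [card_univ, Fintype.card_finset, Fintype.card_fin] at this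
      exact_mod_cast this
  calc _ ≤ |∑ n ∈ range p, (if ∀ i, jacobiSym ((f i).eval (n : ℤ)) p = s i then (1 : ℝ) else 0) -
      ∑ n ∈ range p, G n| + |∑ n ∈ range p, G n - (p : ℝ) / 2 ^ m| := abs_sub_le _ _ _
    _ ≤ F.natDegree + F.natDegree * √p := add_le_add hsum1 hmain
    _ ≤ 2 * F.natDegree * √p := by nlinarith

end Pool.Agent.R418.PT
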